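import Pool.Agent.Helper61.TH.D5

/-!
# TH2: the p-adic part over finitely generated fields
-/

set_option autoImplicit false

namespace Pool.Agent.Helper10.TH2

open MvPolynomial Cardinal Pool.Agent.Helper86.DML Pool.Agent.Helper61.TH
open Pool.Agent.Helper26.FU (MultiHom GoodPad bd PurelyTranscendental exists_alg
  aleph0_lt_intermediate eval_multi)
open Pool.Agent.Helper26.FV (goodPad_of_goodF ap_of_dich_early isEndoC)
open Pool.Agent.Helper87.FK (GoodF)

noncomputable section

variable {s : ℕ} {d : Fin s → ℕ}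

/-- **Block D**, the part for all points, over any field -/
theorem blockDf (c : Idx d → ℂ) (p : ℕ) [Fact p.Prime] (hp3 : 3 ≤ p) (τ₀ : ℂ →+* PadicAlgCl p)
    (R : Subring ℂ) (hR : ∀ z ∈ R, ‖τ₀ z‖ ≤ 1) (ψ : R →+* ZMod p) (hψ : ∀ z : R, ψ z = 0 → ‖τ₀ z‖ < 1)
    (cR : Idx d → R) (hcR : ∀ q, (cR q : ℂ) = c q)
    (hg : ∀ w, GoodF (word (fun q => ψ (cR q)) w)) :
    HasDeg c ∧ FullDML c := by
  classical
  have hψs : Function.Surjective ψ := ZMod.ringHom_surjective ψ
  let K₀ : IntermediateField ℚ_[p] (PadicAlgCl p) :=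
    IntermediateField.adjoin ℚ_[p] (Set.range fun q => τ₀ (c q))
  let cC : Idx d → ℂ := c
  have hcτ : ∀ q, τ₀ (cC q) = τ₀ (cR q) := by
    intro q
    rw [hcR]
  -- good reduction
  have hgood : ∀ w, ∀ S : Set (PadicAlgCl p), GoodPad S (fun i => map τ₀ (word cC w i)) := by
    intro w S
    have h1 : (fun i => map τ₀ (word cC w i)) =
        fun i => map (τ₀.comp R.subtype) (word cR w i) := by
      funext i
      rw [map_word, map_word]
      congr 2
      funext q
      exact hcτ q
    rw [h1]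
    refine goodPad_of_goodF ψ hψs (τ₀.comp R.subtype) (fun x => hR x x.2) (fun x hx => hψ x hx)
      (word cR w) ?_ S
    have h2 : (fun i => map ψ (word cR w i)) = word (fun q => ψ (cR q)) w := by
      funext i
      exact map_word _ _ _ _
    rw [h2]
    exact hg w
  have hc1 : ∀ q, ‖τ₀ (cC q)‖ ≤ 1 := by
    intro q
    rw [hcτ q]
    exact hR _ (cR q).2
  have hcK : ∀ q, τ₀ (cC q) ∈ K₀ := fun q => IntermediateField.subset_adjoin _ _ ⟨q, rfl⟩
  let dm : ℕ := (∑ a, d a) + 1
  have hdm : ∀ a, d a ≤ dm := fun a =>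
    (Finset.single_le_sum (fun i _ => Nat.zero_le (d i)) (Finset.mem_univ a)).trans (Nat.le_succ _)
  have hdm1 : 1 ≤ dm := Nat.le_add_left 1 _
  choose Kf hKf using fun k D δ => blockD1 (p := p) hp3 d k k.factorial D δ
  -- the dichotomy for all systems
  have hdich : ∀ (k D δ : ℕ) (L : Subalgebra ℚ_[p] (PadicAlgCl p)), FiniteDimensional ℚ_[p] L →
      Module.finrank ℚ_[p] L ≤ D → (∀ z ∈ K₀, z ∈ L) →
      ∀ α : Fin k → Fin 2 → ℂ, (∀ b, α b ≠ 0) → (∀ b i j, τ₀ (α b i / α b j) ∈ L) →
      ∀ (A : Fin k → Fin s) (π : Fin k → Fin k),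
        Dich k (k.factorial * (1 + bd (k * 2) p D))
          (k.factorial * ((bd (k * 2) p D).factorial * (bd (k * 2) p D).factorial))
          (Kf k D (δ * dm ^ (2 * k.factorial))) δ
          (fun m => (sysMap c A π)^[m] α) := by
    intro k D δ L hLfin hLD hKL α hα hαL A π
    have h1 := blockD4 cC dm hdm hdm1 k (bd (k * 2) p D)
      ((bd (k * 2) p D).factorial * (bd (k * 2) p D).factorial)
      (Kf k D (δ * dm ^ (2 * k.factorial))) δ α (fun w hw =>
        hKf k D (δ * dm ^ (2 * k.factorial)) L hLD cC τ₀ hc1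
          (fun q => hKL _ (hcK q)) w hw (fun b => hgood (w b) _) α hα hαL) A π
    exact h1
  have hbd : ∀ k D, 1 ≤ k.factorial * ((bd (k * 2) p D).factorial * (bd (k * 2) p D).factorial) :=
    fun k D => Nat.mul_pos (Nat.factorial_pos _)
      (Nat.mul_pos (Nat.factorial_pos _) (Nat.factorial_pos _))
  refine ⟨?_, ?_⟩
  · -- the degrees
    intro a x hx
    refine isEndoC (d := wdeg d [a]) (word cC [a]) (fun i => word_homog cC [a] i) τ₀
      (hgood [a] Set.univ) x fun i => ?_
    have h1 : word cC [a] i = form cC a i := by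
      change bind₁ (fun i => (X i : MvPolynomial (Fin 2) ℂ)) (form cC a i) = form cC a i
      rw [bind₁_X_left]
      rfl
    have h2 : eval x (form cC a i) = ∑ j : Fin (d a + 1),
        c ⟨a, (i, j)⟩ * x 0 ^ (j : ℕ) * x 1 ^ (d a - j) := eval_form _ _ _ _
    rw [h1, h2]
    exact congrFun hx i
  · -- all points
    intro k A π α hα V hV
    let S₀ : Set (PadicAlgCl p) := (Set.range fun q : Fin k × Fin 2 => τ₀ (α q.1 q.2)) ∪
      Set.range fun q => τ₀ (c q)
    have hS₀ : S₀.Finite := (Set.finite_range _).union (Set.finite_range _)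
    let L : IntermediateField ℚ_[p] (PadicAlgCl p) := IntermediateField.adjoin ℚ_[p] S₀
    have hLfin : FiniteDimensional ℚ_[p] L := by
      have : Finite S₀ := hS₀.to_subtype
      exact IntermediateField.finiteDimensional_adjoin fun x _ =>
        (Algebra.IsAlgebraic.isAlgebraic x).isIntegral
    have hLfin' : FiniteDimensional ℚ_[p] L.toSubalgebra := hLfin
    have hαL : ∀ b i, τ₀ (α b i) ∈ L := fun b i =>
      IntermediateField.subset_adjoin _ _ (Or.inl ⟨(b, i), rfl⟩)
    have hK₀L : K₀ ≤ L := IntermediateField.adjoin.mono _ _ _ Set.subset_union_right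
    set D := Module.finrank ℚ_[p] L.toSubalgebra with hD
    have hd1 : ∀ G : MvPolynomial (Fin k × Fin 2) ℂ, MultiHom G → ∀ r,
        {m | eval (fun q => (sysMap c A π)^[k.factorial * (1 + bd (k * 2) p D) + r +
          k.factorial * ((bd (k * 2) p D).factorial * (bd (k * 2) p D).factorial) * m] α q.1 q.2)
            G = 0}.Finite ∨
        ∀ m, eval (fun q => (sysMap c A π)^[k.factorial * (1 + bd (k * 2) p D) + r +
          k.factorial * ((bd (k * 2) p D).factorial * (bd (k * 2) p D).factorial) * m] α q.1 q.2)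
            G = 0 := by
      intro G hGm r
      rcases hdich k D G.totalDegree L.toSubalgebra hLfin' le_rfl (fun z hz => hK₀L hz) α hα
        (fun b i j => by rw [map_div₀]; exact (show _ ∈ L from div_mem (hαL b i) (hαL b j)))
        A π G hGm le_rfl r with h2 | h2
      · exact Or.inl (Set.finite_of_encard_le_coe h2)
      · exact Or.inr h2
    refine Pool.Agent.Helper26.FD.ap_of_dich _ (hbd k D)
      (n₀ := k.factorial * (1 + bd (k * 2) p D)) fun r => ?_
    by_cases hall : ∀ G ∈ V, ∀ m, eval (fun q => (sysMap c A π)^[k.factorial *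
        (1 + bd (k * 2) p D) + r + k.factorial * ((bd (k * 2) p D).factorial *
        (bd (k * 2) p D).factorial) * m] α q.1 q.2) G = 0
    · right
      intro m G hGV
      exact hall G hGV m
    · left
      push Not at hall
      obtain ⟨G, hGV, m, hm⟩ := hall
      rcases hd1 G (hV G hGV) r with h2 | h2
      · exact h2.subset fun m' hm' => hm' G hGV
      · exact absurd (h2 m) hm

/-- **Block D** for finitely generated fields -/
theorem blockDg {K : Type} [Field K] [CharZero K] (gens : Finset K) (hgen : Subfield.closure (gens : Set K) = ⊤)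
    (σ : K →+* ℂ) (c : Idx d → K) (p : ℕ) [Fact p.Prime] (hp3 : 3 ≤ p) (τ₀ : ℂ →+* PadicAlgCl p)
    (R : Subring ℂ) (hR : ∀ z ∈ R, ‖τ₀ z‖ ≤ 1) (ψ : R →+* ZMod p) (hψ : ∀ z : R, ψ z = 0 → ‖τ₀ z‖ < 1)
    (cR : Idx d → R) (hcR : ∀ q, (cR q : ℂ) = σ (c q))
    (hg : ∀ w, GoodF (word (fun q => ψ (cR q)) w)) :
    HasDeg (fun q => σ (c q)) ∧ FullDML (fun q => σ (c q)) ∧
      UnifDML σ.fieldRange (fun q => σ (c q)) := by
  classical
  have hψs : Function.Surjective ψ := ZMod.ringHom_surjective ψ
  let φ : K →+* PadicAlgCl p := τ₀.comp σ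
  have hτ₀ : ∀ x, τ₀ (σ x) = φ x := fun _ => rfl
  have hKc : Countable K := by
    have h1 := Subfield.cardinalMk_closure_le_max (gens : Set K)
    rw [hgen] at h1
    have h2 : Cardinal.mk K ≤ ℵ₀ := by
      have h3 : Cardinal.mk (⊤ : Subfield K) = Cardinal.mk K := Cardinal.mk_congr Subfield.topEquiv.toEquiv
      rw [← h3]
      refine h1.trans (max_le ?_ le_rfl)
      exact (Cardinal.lt_aleph0_of_finite _).le
    exact Cardinal.mk_le_aleph0_iff.1 h2
  let K₀ : IntermediateField ℚ_[p] (PadicAlgCl p) :=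
    IntermediateField.adjoin ℚ_[p] (φ '' (gens : Set K))
  have hgf : (φ '' (gens : Set K)).Finite := gens.finite_toSet.image φ
  have hK₀fin : FiniteDimensional ℚ_[p] K₀ := by
    have : Finite (φ '' (gens : Set K)) := hgf.to_subtype
    exact IntermediateField.finiteDimensional_adjoin fun x _ =>
      (Algebra.IsAlgebraic.isAlgebraic x).isIntegral
  have hφK : ∀ x, φ x ∈ K₀ := by
    have h1 : Subfield.closure (gens : Set K) ≤ K₀.toSubfield.comap φ := by
      rw [Subfield.closure_le]
      intro x hx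
      exact IntermediateField.subset_adjoin _ _ ⟨x, hx, rfl⟩
    rw [hgen] at h1
    exact fun x => h1 (Subfield.mem_top x)
  let cC : Idx d → ℂ := fun q => σ (c q)
  have hcτ : ∀ τ : ℂ →+* PadicAlgCl p, (∀ x, τ (σ x) = φ x) → ∀ q, τ (cC q) = τ₀ (cR q) := by
    intro τ hτ q
    rw [hcR]
    exact hτ _
  -- good reduction
  have hgood : ∀ τ : ℂ →+* PadicAlgCl p, (∀ x, τ (σ x) = φ x) → ∀ w,
      ∀ S : Set (PadicAlgCl p), GoodPad S (fun i => map τ (word cC w i)) := by
    intro τ hτ w S
    have h1 : (fun i => map τ (word cC w i)) =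
        fun i => map (τ₀.comp R.subtype) (word cR w i) := by
      funext i
      rw [map_word, map_word]
      congr 2
      funext q
      exact hcτ τ hτ q
    rw [h1]
    refine goodPad_of_goodF ψ hψs (τ₀.comp R.subtype) (fun x => hR x x.2) (fun x hx => hψ x hx)
      (word cR w) ?_ S
    have h2 : (fun i => map ψ (word cR w i)) = word (fun q => ψ (cR q)) w := by
      funext i
      exact map_word _ _ _ _
    rw [h2]
    exact hg w
  have hc1 : ∀ τ : ℂ →+* PadicAlgCl p, (∀ x, τ (σ x) = φ x) → ∀ q, ‖τ (cC q)‖ ≤ 1 := by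
    intro τ hτ q
    rw [hcτ τ hτ]
    exact hR _ (cR q).2
  have hcK : ∀ τ : ℂ →+* PadicAlgCl p, (∀ x, τ (σ x) = φ x) → ∀ q, τ (cC q) ∈ K₀ := by
    intro τ hτ q
    change τ (σ (c q)) ∈ K₀
    rw [hτ]
    exact hφK _
  let dm : ℕ := (∑ a, d a) + 1
  have hdm : ∀ a, d a ≤ dm := fun a =>
    (Finset.single_le_sum (fun i _ => Nat.zero_le (d i)) (Finset.mem_univ a)).trans (Nat.le_succ _)
  have hdm1 : 1 ≤ dm := Nat.le_add_left 1 _
  choose Kf hKf using fun k D δ => blockD1 (p := p) hp3 d k k.factorial D δ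
  -- the dichotomy for all systems
  have hdich : ∀ (k D δ : ℕ) (L : Subalgebra ℚ_[p] (PadicAlgCl p)), FiniteDimensional ℚ_[p] L →
      Module.finrank ℚ_[p] L ≤ D → (∀ z ∈ K₀, z ∈ L) →
      ∀ τ : ℂ →+* PadicAlgCl p, (∀ x, τ (σ x) = φ x) →
      ∀ α : Fin k → Fin 2 → ℂ, (∀ b, α b ≠ 0) → (∀ b i j, τ (α b i / α b j) ∈ L) →
      ∀ (A : Fin k → Fin s) (π : Fin k → Fin k),
        Dich k (k.factorial * (1 + bd (k * 2) p D))
          (k.factorial * ((bd (k * 2) p D).factorial * (bd (k * 2) p D).factorial))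
          (Kf k D (δ * dm ^ (2 * k.factorial))) δ
          (fun m => (sysMap (fun q => σ (c q)) A π)^[m] α) := by
    intro k D δ L hLfin hLD hKL τ hτ α hα hαL A π
    have h1 := blockD4 cC dm hdm hdm1 k (bd (k * 2) p D)
      ((bd (k * 2) p D).factorial * (bd (k * 2) p D).factorial)
      (Kf k D (δ * dm ^ (2 * k.factorial))) δ α (fun w hw =>
        hKf k D (δ * dm ^ (2 * k.factorial)) L hLD cC τ (hc1 τ hτ)
          (fun q => hKL _ (hcK τ hτ q)) w hw (fun b => hgood τ hτ (w b) _) α hα hαL) A π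
    exact h1
  have hbd : ∀ k D, 1 ≤ k.factorial * ((bd (k * 2) p D).factorial * (bd (k * 2) p D).factorial) :=
    fun k D => Nat.mul_pos (Nat.factorial_pos _)
      (Nat.mul_pos (Nat.factorial_pos _) (Nat.factorial_pos _))
  refine ⟨?_, ?_, ?_⟩
  · -- the degrees
    intro a x hx
    refine isEndoC (d := wdeg d [a]) (word cC [a]) (fun i => word_homog cC [a] i) τ₀
      (hgood τ₀ hτ₀ [a] Set.univ) x fun i => ?_
    have h1 : word cC [a] i = form cC a i := by
      change bind₁ (fun i => (X i : MvPolynomial (Fin 2) ℂ)) (form cC a i) = form cC a i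
      rw [bind₁_X_left]
      rfl
    have h2 : eval x (form cC a i) = ∑ j : Fin (d a + 1),
        σ (c ⟨a, (i, j)⟩) * x 0 ^ (j : ℕ) * x 1 ^ (d a - j) := eval_form _ _ _ _
    rw [h1, h2]
    exact congrFun hx i
  · -- all points
    intro k A π α hα V hV
    let S₀ : Set (PadicAlgCl p) := (Set.range fun q : Fin k × Fin 2 => τ₀ (α q.1 q.2)) ∪
      φ '' (gens : Set K)
    have hS₀ : S₀.Finite := (Set.finite_range _).union hgf
    let L : IntermediateField ℚ_[p] (PadicAlgCl p) := IntermediateField.adjoin ℚ_[p] S₀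
    have hLfin : FiniteDimensional ℚ_[p] L := by
      have : Finite S₀ := hS₀.to_subtype
      exact IntermediateField.finiteDimensional_adjoin fun x _ =>
        (Algebra.IsAlgebraic.isAlgebraic x).isIntegral
    have hLfin' : FiniteDimensional ℚ_[p] L.toSubalgebra := hLfin
    have hαL : ∀ b i, τ₀ (α b i) ∈ L := fun b i =>
      IntermediateField.subset_adjoin _ _ (Or.inl ⟨(b, i), rfl⟩)
    have hK₀L : K₀ ≤ L := IntermediateField.adjoin.mono _ _ _ Set.subset_union_right
    set D := Module.finrank ℚ_[p] L.toSubalgebra with hD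
    have hd1 : ∀ G : MvPolynomial (Fin k × Fin 2) ℂ, MultiHom G → ∀ r,
        {m | eval (fun q => (sysMap (fun q => σ (c q)) A π)^[k.factorial * (1 + bd (k * 2) p D) + r +
          k.factorial * ((bd (k * 2) p D).factorial * (bd (k * 2) p D).factorial) * m] α q.1 q.2)
            G = 0}.Finite ∨
        ∀ m, eval (fun q => (sysMap (fun q => σ (c q)) A π)^[k.factorial * (1 + bd (k * 2) p D) + r +
          k.factorial * ((bd (k * 2) p D).factorial * (bd (k * 2) p D).factorial) * m] α q.1 q.2)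
            G = 0 := by
      intro G hGm r
      rcases hdich k D G.totalDegree L.toSubalgebra hLfin' le_rfl (fun z hz => hK₀L hz) τ₀ hτ₀ α hα
        (fun b i j => by rw [map_div₀]; exact (show _ ∈ L from div_mem (hαL b i) (hαL b j)))
        A π G hGm le_rfl r with h2 | h2
      · exact Or.inl (Set.finite_of_encard_le_coe h2)
      · exact Or.inr h2
    refine Pool.Agent.Helper26.FD.ap_of_dich _ (hbd k D)
      (n₀ := k.factorial * (1 + bd (k * 2) p D)) fun r => ?_
    by_cases hall : ∀ G ∈ V, ∀ m, eval (fun q => (sysMap (fun q => σ (c q)) A π)^[k.factorial *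
        (1 + bd (k * 2) p D) + r + k.factorial * ((bd (k * 2) p D).factorial *
        (bd (k * 2) p D).factorial) * m] α q.1 q.2) G = 0
    · right
      intro m G hGV
      exact hall G hGV m
    · left
      push Not at hall
      obtain ⟨G, hGV, m, hm⟩ := hall
      rcases hd1 G (hV G hGV) r with h2 | h2
      · exact h2.subset fun m' hm' => hm' G hGV
      · exact absurd (h2 m) hm
  · -- uniformity
    let f := Module.finrank ℚ_[p] K₀
    refine ⟨fun k D δ => k.factorial * (1 + bd (k * 2) p (f * D)) +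
        k.factorial * ((bd (k * 2) p (f * D)).factorial * (bd (k * 2) p (f * D)).factorial) *
        Kf k (f * D) (δ * dm ^ (2 * k.factorial)),
      fun k D => k.factorial * (1 + bd (k * 2) p (f * D)),
      fun k D => k.factorial * ((bd (k * 2) p (f * D)).factorial *
        (bd (k * 2) p (f * D)).factorial), fun k D => hbd k (f * D), ?_⟩
    intro k D δ A π E hE M' hMfin hMD α hα hαM V hV hVδ
    obtain ⟨r₀, t, ht, hEt⟩ := hE
    have hL₀c : ((σ.fieldRange : Subfield ℂ) : Set ℂ).Countable := by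
      have h2 : ((σ.fieldRange : Subfield ℂ) : Set ℂ) = Set.range σ := by
        ext z
        simp
      rw [h2]
      exact Set.countable_range _
    have hL₀K : ∀ z ∈ σ.fieldRange, τ₀ z ∈ K₀.toSubfield := by
      rintro _ ⟨x, rfl⟩
      rw [hτ₀]
      exact hφK x
    obtain ⟨τ, hτ, hτt⟩ := Pool.Agent.Helper26.FU.exists_embedding σ.fieldRange hL₀c τ₀
      K₀.toSubfield (aleph0_lt_intermediate K₀) hL₀K ht
    have hτφ : ∀ x, τ (σ x) = φ x := fun x => (hτ _ ⟨x, rfl⟩).trans (hτ₀ x)
    have hEK : ∀ z ∈ E, τ z ∈ K₀ := by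
      intro z hz
      have h2 : E ≤ K₀.toSubfield.comap τ := by
        rw [hEt, Subfield.closure_le]
        rintro w (hw | ⟨i, rfl⟩)
        · have h3 := hL₀K w hw
          rw [← hτ w hw] at h3
          exact h3
        · exact hτt i
      exact h2 hz
    obtain ⟨L, hLfin, hLD, hML, hKL⟩ := exists_alg K₀ τ E hEK M'
    have hD' : Module.finrank ℚ_[p] L ≤ f * D := hLD.trans (Nat.mul_le_mul_left _ hMD)
    refine ap_of_dich_early _ (hbd k (f * D)) fun r => ?_
    by_cases hall : ∀ G ∈ V, ∀ m, eval (fun q => (sysMap (fun q => σ (c q)) A π)^[k.factorial *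
        (1 + bd (k * 2) p (f * D)) + r + k.factorial * ((bd (k * 2) p (f * D)).factorial *
        (bd (k * 2) p (f * D)).factorial) * m] α q.1 q.2) G = 0
    · right
      intro m G hGV
      exact hall G hGV m
    · left
      push Not at hall
      obtain ⟨G, hGV, m, hm⟩ := hall
      rcases hdich k (f * D) δ L hLfin hD' hKL τ hτφ α hα
        (fun b i j => hML _ (div_mem (hαM b i) (hαM b j))) A π G (hV G hGV) (hVδ G hGV) r
        with h2 | h2
      · refine le_trans (Set.encard_le_encard ?_) h2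
        intro m' hm'
        exact hm' G hGV
      · exact absurd (h2 m) hm

end

end Pool.Agent.Helper10.TH2
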