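import Pool.Agent.Helper10.TH2.R
import Pool.Agent.Helper61.TH.SpecB
import Pool.Agent.Helper61.TH.Good2
import Pool.Agent.Helper87.TG.Fin
import Pool.Agent.Helper26.HI.Ex4

/-!
# TH2: the dynamical Mordell-Lang conjecture outside a thin set, over any field
-/

set_option autoImplicit false

namespace Pool.Agent.Helper10.TH2

open Pool.Agent.Helper61.TH

noncomputable section

/-- **The theorem.** -/
theorem main (K : Type) [Field K] [CharZero K] {s : ℕ} (d : Fin s → ℕ) (hd : ∀ a, 2 ≤ d a) :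
    UL.IsThin {c : Idx d → K | ¬ ∀ σ : K →+* ℂ, HasDeg (fun q => σ (c q)) ∧
      FullDML (fun q => σ (c q)) ∧ ((∃ G : Finset K, Subfield.closure (G : Set K) = ⊤) →
        UnifDML σ.fieldRange (fun q => σ (c q)))} := by
  obtain ⟨Ψ, S, hΨ, hS, h⟩ := blockB K d (Pool.Agent.Helper87.TG.blockA K d hd)
  refine ⟨Ψ, S, hΨ, hS, fun c hc => h c fun hstar => hc fun σ => ?_⟩
  obtain ⟨γ, hγ⟩ := hstar
  obtain ⟨p, i, τ, R, ψ, cR, hp3, hR, hψ, hcR, hU⟩ := blockRg Pool.Agent.Helper26.HI.exS hd c γ hγ σ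
  obtain ⟨h1, h2⟩ := blockDf (fun q => σ (c q)) p hp3 τ R hR ψ hψ cR hcR fun w => blockD2 hd _ hU w
  refine ⟨h1, h2, ?_⟩
  rintro ⟨G, hG⟩
  exact (blockDg G hG σ c p hp3 τ R hR ψ hψ cR hcR fun w => blockD2 hd _ hU w).2.2

end

end Pool.Agent.Helper10.TH2
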