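import Pool.Agent.Helper10.TH2.D
import Pool.Agent.Helper10.V4.FrobS
import Pool.Agent.Helper98.TR.CY
import Pool.Agent.Helper86.TH.R1
import Pool.Agent.Helper86.TH2.Hyp

/-!
# TH2: good reduction over finitely generated fields
-/

set_option autoImplicit false

namespace Pool.Agent.Helper10.TH2

open Polynomial Pool.Agent.Helper61.TH Pool.Agent.Helper87.FK Pool.Agent.Helper26.OB
open Pool.Agent.Helper10.V4 (per_algK)
open Pool.Agent.Helper10.TR (exists_ext98)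

noncomputable section

/-- the ring of the elements whose residues are fixed by Frobenius -/
theorem exists_Rp {p : ℕ} [Fact p.Prime] (τ : ℂ →+* PadicAlgCl p) :
    ∃ (R : Subring ℂ) (ψ : R →+* ZMod p) (κ : ZMod p →+* kk p),
      (∀ z, z ∈ R ↔ ‖τ z‖ ≤ 1 ∧ rd τ z ^ p = rd τ z) ∧ ∀ z : R, κ (ψ z) = rd τ z := by
  have hcp : CharP (kk p) p := charP_kk p
  let F : Subring (kk p) := RingHom.eqLocus (frobenius (kk p) p) (RingHom.id _)
  let R : Subring ℂ := (F.comap (rh τ)).map (Ot τ).subtype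
  have hRm : ∀ z, z ∈ R ↔ ‖τ z‖ ≤ 1 ∧ rd τ z ^ p = rd τ z := by
    intro z
    constructor
    · rintro ⟨x, hx, rfl⟩
      refine ⟨(mem_Ot τ).1 x.2, ?_⟩
      have h1 : rd τ ((Ot τ).subtype x) = rh τ x := rd_coe τ x
      rw [h1]
      exact hx
    · rintro ⟨h1, h2⟩
      refine ⟨⟨z, (mem_Ot τ).2 h1⟩, ?_, rfl⟩
      change frobenius (kk p) p (rh τ ⟨z, (mem_Ot τ).2 h1⟩) = rh τ ⟨z, (mem_Ot τ).2 h1⟩
      rw [← rd_coe τ, frobenius_def]
      exact h2
  have hRO : R ≤ Ot τ := fun z hz => (mem_Ot τ).2 ((hRm z).1 hz).1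
  let κ : ZMod p →+* kk p := ZMod.castHom (dvd_refl p) (kk p)
  let ρ : R →+* kk p := (rh τ).comp (Subring.inclusion hRO)
  have hρ : ∀ z : R, ρ z = rd τ z := fun z => (rd_coe τ (Subring.inclusion hRO z)).symm
  have hm : ∀ z : R, ρ z ∈ κ.fieldRange := by
    intro z
    rw [ZMod.fieldRange_castHom_eq_bot p, Subfield.mem_bot_iff_pow_eq_self (F := kk p) (p := p), hρ]
    exact ((hRm z).1 z.2).2
  let e := κ.rangeRestrictFieldEquiv
  refine ⟨R, (e.symm : κ.fieldRange →+* ZMod p).comp (ρ.codRestrict κ.fieldRange hm), κ, hRm, fun z => ?_⟩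
  have h1 := RingHom.rangeRestrictFieldEquiv_apply_symm_apply κ (ρ.codRestrict κ.fieldRange hm z)
  rw [← hρ]
  exact h1

/-- the roots of a polynomial over an algebraically closed subfield lie in the subfield -/
theorem root_lift {Ω : Type} [Field Ω] [IsAlgClosed Ω] (σ : Ω →+* ℂ) (P : Polynomial Ω) (hP : P ≠ 0) (z : ℂ)
    (hz : (P.map σ).eval z = 0) : ∃ z', P.eval z' = 0 ∧ σ z' = z := by
  have h1 : P = C P.leadingCoeff * (P.roots.map fun a => X - C a).prod := (IsAlgClosed.splits P).eq_prod_roots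
  rw [h1, Polynomial.map_mul, map_C, eval_mul, eval_C, mul_eq_zero] at hz
  rcases hz with hz | hz
  · exact absurd ((map_eq_zero σ).1 hz) (leadingCoeff_ne_zero.2 hP)
  · rw [Polynomial.map_multiset_prod, Multiset.map_map, eval_multiset_prod, Multiset.map_map, Multiset.prod_eq_zero_iff,
      Multiset.mem_map] at hz
    obtain ⟨a, ha, h2⟩ := hz
    simp only [Function.comp_apply, Polynomial.map_sub, map_X, map_C, eval_sub, eval_X, eval_C, sub_eq_zero] at h2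
    exact ⟨a, (mem_roots hP).1 ha, h2.symm⟩

/-- **Block R** for finitely generated fields -/
theorem blockRg
    (exS : ∀ (s : ℂ ≃+* ℂ) (W : Finset ℂ), (∀ z ∈ W, ∃ m : ℕ, 1 ≤ m ∧ s^[m] z = z) → ∀ N₀ : ℕ,
      ∃ (p : ℕ) (_ : Fact p.Prime) (τ : ℂ →+* PadicAlgCl p), N₀ < p ∧ Un τ W ∧
        ∀ z ∈ W, ∀ m : ℕ, ‖(τ z) ^ p ^ m - τ z‖ < 1 ↔ s^[m] z = z)
    {K : Type} [Field K] [CharZero K] {s : ℕ} {d : Fin s → ℕ}
    (hd : ∀ a, 2 ≤ d a) (c : Idx d → K) (γ : AlgebraicClosure K ≃ₐ[K] AlgebraicClosure K) (hc : Star c γ)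
    (σ : K →+* ℂ) :
    ∃ (p : ℕ) (_ : Fact p.Prime) (τ : ℂ →+* PadicAlgCl p) (R : Subring ℂ) (ψ : R →+* ZMod p) (cR : Idx d → R),
      3 ≤ p ∧ (∀ z ∈ R, ‖τ z‖ ≤ 1) ∧ (∀ z : R, ψ z = 0 → ‖τ z‖ < 1) ∧ (∀ q, (cR q : ℂ) = σ (c q)) ∧
      HypU (fun q => ψ (cR q)) := by
  classical
  -- the embedding of the algebraic closure
  let Ω := AlgebraicClosure K
  obtain ⟨σb, hσb⟩ : ∃ σb : Ω →+* ℂ, ∀ x : K, σb (algebraMap K Ω x) = σ x := by
    let : Algebra K ℂ := σ.toAlgebra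
    let f : Ω →ₐ[K] ℂ := IsAlgClosed.lift
    exact ⟨f, fun x => f.commutes x⟩
  obtain ⟨g, hg⟩ : ∃ g : ℂ ≃+* ℂ, ∀ x, g (σb x) = σb (γ x) := by
    let L : IntermediateField σ.fieldRange ℂ := σb.fieldRange.toIntermediateField (by
      rintro ⟨_, x, rfl⟩
      exact ⟨algebraMap K Ω x, hσb x⟩)
    let e : Ω ≃+* L := σb.rangeRestrictFieldEquiv
    have he : ∀ x, ((e x : L) : ℂ) = σb x := fun x => rfl
    let sL : L ≃ₐ[σ.fieldRange] L := AlgEquiv.ofRingEquiv (f := e.symm.trans ((γ : Ω ≃+* Ω).trans e)) (by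
      rintro ⟨_, x, rfl⟩
      have h1 : algebraMap σ.fieldRange L ⟨σ x, x, rfl⟩ = e (algebraMap K Ω x) := by
        apply Subtype.ext
        rw [he, hσb]
        rfl
      change e (γ (e.symm (algebraMap σ.fieldRange L ⟨σ x, x, rfl⟩))) = algebraMap σ.fieldRange L ⟨σ x, x, rfl⟩
      rw [h1, e.symm_apply_apply, γ.commutes])
    obtain ⟨g, hg⟩ := exists_ext98 σ.fieldRange L sL
    refine ⟨g.toRingEquiv, fun x => ?_⟩
    have h1 := hg (e x)
    have h2 : sL (e x) = e (γ x) := by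
      change e (γ (e.symm (e x))) = e (γ x)
      rw [e.symm_apply_apply]
    rw [h2] at h1
    exact h1
  have hg' : ∀ x, g (σb x) = σb (γ x) := hg
  have hgK : ∀ z ∈ σ.fieldRange, g z = z := by
    rintro _ ⟨x, rfl⟩
    rw [← hσb, hg', γ.commutes]
  -- elements with finite orbits
  have hfin : ∀ y : Ω, ∃ m : ℕ, 1 ≤ m ∧ g^[m] (σb y) = σb y := by
    intro y
    refine per_algK σ.fieldRange g hgK (σb y) ?_
    obtain ⟨P, hP0, hP⟩ := Algebra.IsAlgebraic.isAlgebraic (R := K) y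
    refine ⟨P.map σ.rangeRestrictField, (Polynomial.map_ne_zero_iff σ.rangeRestrictField.injective).2 hP0, ?_⟩
    rw [aeval_def, eval₂_map]
    have h1 : (algebraMap σ.fieldRange ℂ).comp σ.rangeRestrictField = σb.comp (algebraMap K Ω) := by
      ext x
      exact (hσb x).symm
    rw [h1, ← hom_eval₂]
    rw [aeval_def] at hP
    rw [hP, map_zero]
  set cC : Idx d → ℂ := fun q => σ (c q) with hcC
  set cΩ : Idx d → Ω := fun q => algebraMap K Ω (c q) with hcΩ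
  have hcC' : cC = fun q => σb (cΩ q) := funext fun q => (hσb (c q)).symm
  have hwrC : ∀ a, wr cC a = (wr cΩ a).map σb := fun a => by rw [hcC', ← map_wr]
  have hwrΩ : ∀ a, wr cΩ a = (wr c a).map (algebraMap K Ω) := fun a => (map_wr _ c a).symm
  have hplΩ : ∀ b i, pl cΩ b i = (pl c b i).map (algebraMap K Ω) := fun b i => (map_pl _ c b i).symm
  have hwr0 : ∀ a, wr cΩ a ≠ 0 := by
    intro a h0
    apply hc.top a
    rw [hwrΩ] at h0
    rw [(Polynomial.map_eq_zero _).1 h0, coeff_zero]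
  -- critical points
  have hcrit : ∀ a z, eval z (wr cC a) = 0 → ∃ z' : Ω, aeval z' (wr c a) = 0 ∧ σb z' = z := by
    intro a z hz
    rw [hwrC] at hz
    obtain ⟨z', h1, h2⟩ := root_lift σb (wr cΩ a) (hwr0 a) z hz
    rw [hwrΩ, eval_map_algebraMap] at h1
    exact ⟨z', h1, h2⟩
  have hlam : ∀ a b (z' : Ω), aeval z' (wr c a) = 0 → lc cC b 0 - σb z' * lc cC b 1 =
      σb (algebraMap K Ω (lc c b 0) - z' * algebraMap K Ω (lc c b 1)) ∧ lc cC b 0 - σb z' * lc cC b 1 ≠ 0 := by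
    intro a b z' hz'
    have h1 : lc cC b 0 - σb z' * lc cC b 1 = σb (algebraMap K Ω (lc c b 0) - z' * algebraMap K Ω (lc c b 1)) := by
      rw [map_sub, map_mul, hσb, hσb]
      rfl
    refine ⟨h1, ?_⟩
    rw [h1]
    intro h0
    exact hc.lead a b z' hz' (sub_eq_zero.1 ((map_eq_zero σb).1 h0))
  have hfib : ∀ a b (z' : Ω) (y : ℂ), aeval z' (wr c a) = 0 → eval y (pl cC b 0) = σb z' * eval y (pl cC b 1) →
      ∃ y' : Ω, σb y' = y ∧ γ y' ≠ y' := by
    intro a b z' y hz' hy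
    have hG0 : pl cΩ b 0 - C z' * pl cΩ b 1 ≠ 0 := by
      intro h0
      have h1 := congrArg (fun P : Polynomial Ω => P.coeff (d b)) h0
      simp only [coeff_sub, coeff_C_mul, coeff_zero] at h1
      rw [Pool.Agent.Helper86.TH.coeff_pl_top, Pool.Agent.Helper86.TH.coeff_pl_top] at h1
      exact hc.lead a b z' hz' (sub_eq_zero.1 h1)
    have hG : ((pl cΩ b 0 - C z' * pl cΩ b 1).map σb).eval y = 0 := by
      rw [Polynomial.map_sub, Polynomial.map_mul, map_C, map_pl, map_pl, ← hcC', eval_sub, eval_mul, eval_C, hy, sub_self]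
    obtain ⟨y', h1, h2⟩ := root_lift σb _ hG0 y hG
    refine ⟨y', h2, hc.move a b z' y' hz' ?_⟩
    rw [eval_sub, eval_mul, eval_C, sub_eq_zero, hplΩ, hplΩ, eval_map_algebraMap, eval_map_algebraMap] at h1
    exact h1
  -- the finite set
  have hwrC0 : ∀ a, wr cC a ≠ 0 := fun a => by
    rw [hwrC]
    exact (Polynomial.map_ne_zero_iff σb.injective).2 (hwr0 a)
  let Zc : Finset ℂ := Finset.univ.biUnion fun a => (wr cC a).roots.toFinset
  have hZc : ∀ a z, eval z (wr cC a) = 0 → z ∈ Zc := fun a z hz => Finset.mem_biUnion.2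
    ⟨a, Finset.mem_univ _, Multiset.mem_toFinset.2 ((mem_roots (hwrC0 a)).2 hz)⟩
  have hZc' : ∀ z ∈ Zc, ∃ a, eval z (wr cC a) = 0 := by
    intro z hz
    obtain ⟨a, -, hz⟩ := Finset.mem_biUnion.1 hz
    exact ⟨a, (mem_roots (hwrC0 a)).1 (Multiset.mem_toFinset.1 hz)⟩
  let T : Finset ℂ := Finset.univ.image cC ∪ ((Finset.univ.image fun a => (wr cC a).coeff (2 * d a - 2)) ∪
    (Zc ∪ Zc.biUnion fun z => Finset.univ.image fun b => lc cC b 0 - z * lc cC b 1))
  let Y : Finset ℂ := Zc.biUnion fun z => Finset.univ.biUnion fun b => (pl cC b 0 - C z * pl cC b 1).roots.toFinset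
  have hGC0 : ∀ a b z, eval z (wr cC a) = 0 → pl cC b 0 - C z * pl cC b 1 ≠ 0 := by
    intro a b z hz h0
    obtain ⟨z', h1, rfl⟩ := hcrit a z hz
    have h2 := congrArg (fun P : ℂ[X] => P.coeff (d b)) h0
    simp only [coeff_sub, coeff_C_mul, coeff_zero] at h2
    rw [Pool.Agent.Helper86.TH.coeff_pl_top, Pool.Agent.Helper86.TH.coeff_pl_top] at h2
    exact (hlam a b z' h1).2 h2
  have hYm : ∀ a b z y, eval z (wr cC a) = 0 → eval y (pl cC b 0) = z * eval y (pl cC b 1) → y ∈ Y := by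
    intro a b z y hz hy
    refine Finset.mem_biUnion.2 ⟨z, hZc a z hz, Finset.mem_biUnion.2 ⟨b, Finset.mem_univ _, Multiset.mem_toFinset.2
      ((mem_roots (hGC0 a b z hz)).2 ?_)⟩⟩
    rw [IsRoot.def, eval_sub, eval_mul, eval_C, hy, sub_self]
  have hYm' : ∀ y ∈ Y, ∃ y' : Ω, σb y' = y ∧ γ y' ≠ y' := by
    intro y hy
    obtain ⟨z, hz, hy⟩ := Finset.mem_biUnion.1 hy
    obtain ⟨b, -, hy⟩ := Finset.mem_biUnion.1 hy
    obtain ⟨a, ha⟩ := hZc' z hz
    obtain ⟨z', h1, rfl⟩ := hcrit a z ha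
    have h2 := (mem_roots (hGC0 a b _ ha)).1 (Multiset.mem_toFinset.1 hy)
    rw [IsRoot.def, eval_sub, eval_mul, eval_C, sub_eq_zero] at h2
    exact hfib a b z' y h1 h2
  have hT : ∀ z ∈ T, g z = z := by
    intro z hz
    rcases Finset.mem_union.1 hz with hz | hz
    · obtain ⟨q, -, rfl⟩ := Finset.mem_image.1 hz
      exact hgK _ ⟨c q, rfl⟩
    rcases Finset.mem_union.1 hz with hz | hz
    · obtain ⟨a, -, rfl⟩ := Finset.mem_image.1 hz
      refine hgK _ ⟨(wr c a).coeff (2 * d a - 2), ?_⟩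
      have h1 : wr cC a = (wr c a).map σ := (map_wr σ c a).symm
      rw [h1, coeff_map]
    rcases Finset.mem_union.1 hz with hz | hz
    · obtain ⟨a, ha⟩ := hZc' z hz
      obtain ⟨z', h1, rfl⟩ := hcrit a z ha
      rw [hg', hc.fix a z' h1]
    · obtain ⟨w, hw, hz⟩ := Finset.mem_biUnion.1 hz
      obtain ⟨b, -, rfl⟩ := Finset.mem_image.1 hz
      obtain ⟨a, ha⟩ := hZc' w hw
      obtain ⟨z', h1, rfl⟩ := hcrit a w ha
      rw [(hlam a b z' h1).1, hg', map_sub, map_mul, γ.commutes, γ.commutes, hc.fix a z' h1]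
  obtain ⟨p, hp, τ, hpN, hUn, hiff⟩ := exS g (T ∪ Y) (fun z hz => by
    rcases Finset.mem_union.1 hz with hz | hz
    · exact ⟨1, le_rfl, hT z hz⟩
    · obtain ⟨y', rfl, -⟩ := hYm' z hz
      exact hfin y') (max 2 (∑ a, d a))
  have hp3 : 3 ≤ p := (lt_of_le_of_lt (le_max_left _ _) hpN)
  have hpd : ∀ a, d a < p := fun a => lt_of_le_of_lt
    ((Finset.single_le_sum (f := d) (fun i _ => Nat.zero_le _) (Finset.mem_univ a)).trans (le_max_right _ _)) hpN
  have hTf : ∀ z ∈ T, ‖τ z‖ ≤ 1 ∧ rd τ z ^ p = rd τ z := by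
    intro z hz
    have hz' := Finset.mem_union_left Y hz
    refine ⟨(hUn z hz').1, Pool.Agent.Helper11.TR.rd_pow_eqR τ (hUn z hz').1 (hUn z hz').1 ?_⟩
    have h1 := (hiff z hz' 1).2 (hT z hz)
    rwa [pow_one] at h1
  obtain ⟨R, ψ, κ, hR, hψ⟩ := exists_Rp τ
  have m1 : ∀ q, cC q ∈ T := fun q => Finset.mem_union_left _ (Finset.mem_image_of_mem _ (Finset.mem_univ q))
  have m2 : ∀ a, (wr cC a).coeff (2 * d a - 2) ∈ T := fun a => Finset.mem_union_right _ (Finset.mem_union_left _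
    (Finset.mem_image.2 ⟨a, Finset.mem_univ _, rfl⟩))
  have m3 : ∀ z ∈ Zc, z ∈ T := fun z hz => Finset.mem_union_right _ (Finset.mem_union_right _ (Finset.mem_union_left _ hz))
  have m4 : ∀ z ∈ Zc, ∀ b, lc cC b 0 - z * lc cC b 1 ∈ T := fun z hz b => Finset.mem_union_right _
    (Finset.mem_union_right _ (Finset.mem_union_right _ (Finset.mem_biUnion.2 ⟨z, hz, Finset.mem_image.2
      ⟨b, Finset.mem_univ _, rfl⟩⟩)))
  refine ⟨p, hp, τ, R, ψ, fun q => ⟨cC q, (hR _).2 (hTf _ (m1 q))⟩, hp3, fun z hz => ((hR z).1 hz).1, fun z hz => ?_,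
    fun q => rfl, ?_⟩
  · have h1 := hψ z
    rw [hz, map_zero] at h1
    exact (rd_eq_zero τ ((hR _).1 z.2).1).1 h1.symm
  · refine Pool.Agent.Helper86.TH2.hypU_of hd cC hpd τ (fun q => hTf _ (m1 q)) (fun a => ?_) (fun a z hz => hTf _ (m3 z (hZc a z hz)))
      (fun a b z hz => ?_) (fun a b z y hz hy => ?_) κ _ (fun q => hψ _)
    · refine (hUn _ (Finset.mem_union_left Y (m2 a))).2 ?_
      have h1 : wr cC a = (wr c a).map σ := (map_wr σ c a).symm
      rw [h1, coeff_map]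
      exact (map_ne_zero σ).2 (hc.top a)
    · refine (hUn _ (Finset.mem_union_left Y (m4 z (hZc a z hz) b))).2 ?_
      obtain ⟨z', h1, rfl⟩ := hcrit a z hz
      exact (hlam a b z' h1).2
    · have hyY := hYm a b z y hz hy
      have hyW := Finset.mem_union_right T hyY
      refine ⟨(hUn y hyW).1, fun h0 => ?_⟩
      obtain ⟨y', rfl, h2⟩ := hYm' y hyY
      apply h2
      have h3 := (hiff _ hyW 1).1 ((rd_pow_iff τ _ (hUn _ hyW).1 1).1 (by rw [pow_one]; exact h0))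
      rw [Function.iterate_one, hg'] at h3
      exact σb.injective h3

end

end Pool.Agent.Helper10.TH2
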